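import Pool.Agent.Helper38.FS.Goals2
import Pool.Agent.Helper64.AK.OP

/-!
# Project FS: MIX1 and MIX2 of `Pool.Agent.Helper38.FS.Goals2`

Mixing of the simple walk on tuples from the one sided gap: `W^m ≤ (2m+1) L^(2m)` entrywise,
`L = (1 + W) / 2`, and `|L u| ≤ (11/20) |u|` for functions `u` of mean zero.
-/

set_option autoImplicit false

namespace Pool.Agent.Helper58.FS.Mix

open Finset Equiv
open _root_.Pool.Agent.Helper60.FS (act run)
open _root_.Pool.Agent.Helper3.AK (Alt TupleGap Fn ip Act Wk Lz tupleWalk)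
open _root_.Pool.Agent.Helper64.AK
open _root_.Pool.Agent.Helper38.FS (Lt up pm S_MIX1 S_MIX2)
open Classical

variable {n r K : ℕ}

theorem run_eq_pm (z : Fin K → Perm (Fin n)) : ∀ (v : List (Lt K)) (x : Fin n),
    run z v x = pm z v x
  | [], _ => rfl
  | l :: v, x => by
    rw [run, run_eq_pm z v, pm, Perm.mul_apply]
    congr 1
    unfold act
    split_ifs <;> rfl

/-- the permutation of a letter -/
def lp (z : Fin K → Alt n) (l : Lt K) : Perm (Fin n) :=
  if l.2 = true then up z l.1 else (up z l.1)⁻¹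

theorem Wk_letters (z : Fin K → Alt n) (φ : Fn n r) (a : Fin r ↪ Fin n) :
    Wk z φ a = (2 * (K : ℝ))⁻¹ * ∑ l : Lt K, φ (a.trans (lp z l).toEmbedding) := by
  rw [Wk_apply', Pi.smul_apply, smul_eq_mul]
  congr 1
  rw [Fintype.sum_prod_type, Finset.sum_apply]
  refine Finset.sum_congr rfl fun i _ => ?_
  rw [Fintype.sum_bool]
  rfl

theorem Wk_pow (hK : 1 ≤ K) (z : Fin K → Alt n) (φ : Fn n r) : ∀ (m : ℕ) (a : Fin r ↪ Fin n),
    (2 * (K : ℝ)) ^ m * ((Wk z) ^ m) φ a =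
      ∑ v : Fin m → Lt K, φ (a.trans (pm (up z) (List.ofFn v)).toEmbedding)
  | 0, a => by
    simp only [pow_zero, one_mul, Module.End.one_apply, List.ofFn_zero]
    rw [Fintype.sum_unique]
    congr 1
  | m + 1, a => by
    have hK0 : (2 * (K : ℝ)) ≠ 0 := by
      have : (0 : ℝ) < K := by exact_mod_cast hK
      positivity
    have e1 : ((Wk z) ^ (m + 1)) φ = Wk z (((Wk z) ^ m) φ) := by
      rw [pow_succ', Module.End.mul_apply]
    rw [e1, Wk_letters, pow_succ]
    have e2 : ∀ x : ℝ, (2 * (K : ℝ)) ^ m * (2 * (K : ℝ)) * ((2 * (K : ℝ))⁻¹ * x) =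
        (2 * (K : ℝ)) ^ m * x := by
      intro x
      field_simp
    rw [e2, Finset.mul_sum]
    simp_rw [Wk_pow hK z φ m]
    rw [← Fintype.sum_prod_type' (f := fun (l : Lt K) (v : Fin m → Lt K) =>
      φ ((a.trans (lp z l).toEmbedding).trans (pm (up z) (List.ofFn v)).toEmbedding))]
    refine Fintype.sum_equiv (Fin.consEquiv fun _ => Lt K) _ _ ?_
    rintro ⟨l, v⟩
    have e3 : (Fin.consEquiv fun _ => Lt K) (l, v) = Fin.cons l v := rfl
    rw [e3, List.ofFn_cons]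
    rfl

theorem Wk_nonneg (z : Fin K → Alt n) {φ : Fn n r} (h : ∀ a, 0 ≤ φ a) (a : Fin r ↪ Fin n) :
    0 ≤ Wk z φ a := by
  rw [Wk_letters]
  exact mul_nonneg (by positivity) (Finset.sum_nonneg fun l _ => h _)

theorem Wk_pow_nonneg (z : Fin K → Alt n) {φ : Fn n r} (h : ∀ a, 0 ≤ φ a) (m : ℕ) :
    ∀ a, 0 ≤ ((Wk z) ^ m) φ a := by
  induction m with
  | zero => simpa using h
  | succ m ih =>
    intro a
    rw [pow_succ', Module.End.mul_apply]
    exact Wk_nonneg z ih a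

/-- `L^(2m)` as a binomial sum -/
theorem Lz_pow (z : Fin K → Alt n) (φ : Fn n r) (N : ℕ) (a : Fin r ↪ Fin n) :
    ((Lz z) ^ N) φ a = (1 / 2) ^ N * ∑ j ∈ range (N + 1), ((Wk z) ^ j) φ a * (N.choose j : ℝ) := by
  have e : (Lz z : Fn n r →ₗ[ℝ] Fn n r) = (1 / 2 : ℝ) • (Wk z + 1) := by
    unfold Lz
    rw [add_comm]
    rfl
  rw [e, smul_pow, (Commute.one_right (Wk z : Fn n r →ₗ[ℝ] Fn n r)).add_pow]
  rw [LinearMap.smul_apply, Pi.smul_apply, smul_eq_mul]
  congr 1
  rw [LinearMap.sum_apply, Finset.sum_apply]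
  refine Finset.sum_congr rfl fun j _ => ?_
  rw [one_pow, mul_one, Module.End.mul_apply]
  have e2 : ((N.choose j : ℕ) : Fn n r →ₗ[ℝ] Fn n r) φ = (N.choose j : ℝ) • φ := by
    rw [Module.End.natCast_apply]
    exact (Nat.cast_smul_eq_nsmul ℝ _ _).symm
  rw [e2, map_smul, Pi.smul_apply, smul_eq_mul, mul_comm]

theorem Wk_le_Lz (z : Fin K → Alt n) {φ : Fn n r} (h : ∀ a, 0 ≤ φ a) (m : ℕ)
    (a : Fin r ↪ Fin n) :
    ((Wk z) ^ m) φ a ≤ (2 * m + 1) * ((Lz z) ^ (2 * m)) φ a := by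
  rw [Lz_pow]
  have h1 : ((Wk z) ^ m) φ a * ((2 * m).choose m : ℝ) ≤
      ∑ j ∈ range (2 * m + 1), ((Wk z) ^ j) φ a * ((2 * m).choose j : ℝ) :=
    Finset.single_le_sum (f := fun j => ((Wk z) ^ j) φ a * ((2 * m).choose j : ℝ))
      (fun j _ => mul_nonneg (Wk_pow_nonneg z h j a) (Nat.cast_nonneg _))
      (Finset.mem_range.2 (by omega))
  have h2 : (4 : ℝ) ^ m ≤ (2 * m + 1) * ((2 * m).choose m : ℝ) := by
    have := Nat.four_pow_le_two_mul_add_one_mul_central_binom m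
    exact_mod_cast this
  have h3 : 0 ≤ ((Wk z) ^ m) φ a := Wk_pow_nonneg z h m a
  have h4 : (1 / 2 : ℝ) ^ (2 * m) = ((4 : ℝ) ^ m)⁻¹ := by
    rw [pow_mul, ← inv_pow]
    norm_num
  rw [h4]
  have h5 : (0 : ℝ) < 4 ^ m := by positivity
  calc ((Wk z) ^ m) φ a = (4 ^ m)⁻¹ * (((Wk z) ^ m) φ a * 4 ^ m) := by field_simp
    _ ≤ (4 ^ m)⁻¹ * (((Wk z) ^ m) φ a * ((2 * m + 1) * ((2 * m).choose m : ℝ))) := by
        gcongr
    _ = (2 * m + 1) * ((4 ^ m)⁻¹ * (((Wk z) ^ m) φ a * ((2 * m).choose m : ℝ))) := by ring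
    _ ≤ _ := by gcongr

/-! ### contraction on mean zero functions -/

theorem sum_Act (g : Perm (Fin n)) (φ : Fn n r) : ∑ a, Act g φ a = ∑ a, φ a :=
  Fintype.sum_equiv (tr g) _ _ fun _ => rfl

theorem sum_Lz (hK : 1 ≤ K) (z : Fin K → Alt n) (φ : Fn n r) : ∑ a, Lz z φ a = ∑ a, φ a := by
  have hK0 : (0 : ℝ) < K := by exact_mod_cast hK
  have h1 : ∑ a, Wk z φ a = ∑ a, φ a := by
    have h2 : ∀ a, Wk z φ a = (2 * (K : ℝ))⁻¹ * ∑ i, (Act (z i : Perm (Fin n)) φ a +
        Act ((z i : Perm (Fin n))⁻¹) φ a) := by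
      intro a
      rw [Wk_apply', Pi.smul_apply, smul_eq_mul, Finset.sum_apply]
      rfl
    simp_rw [h2]
    rw [← Finset.mul_sum, Finset.sum_comm]
    simp_rw [Finset.sum_add_distrib, sum_Act]
    simp only [Finset.sum_const, Finset.card_univ, Fintype.card_fin, nsmul_eq_mul]
    field_simp
    ring
  have h3 : ∀ a, Lz z φ a = (1 / 2) * (φ a + Wk z φ a) := by
    intro a
    rw [Lz_apply]
    rfl
  simp_rw [h3]
  rw [← Finset.mul_sum, Finset.sum_add_distrib, h1]
  ring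

theorem gap_ip (z : Fin K → Alt n) (hz : TupleGap z r (9 / 10)) {u : Fn n r}
    (hu : ∑ a, u a = 0) : ip (Lz z u) u ≤ 11 / 20 * ip u u := by
  have h1 := hz u hu
  have h2 : ip (Wk z u) u ≤ 1 / 10 * ip u u := by
    have e1 : ip (Wk z u) u = ∑ a, u a * tupleWalk z r u a := by
      rw [ip_comm]
      unfold ip
      refine Finset.sum_congr rfl fun a _ => ?_
      congr 1
      rw [Wk_apply', Pi.smul_apply, smul_eq_mul, Finset.sum_apply]
      rfl
    have e2 : ip u u = ∑ a, u a ^ 2 := by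
      unfold ip
      exact Finset.sum_congr rfl fun a _ => by ring
    rw [e1, e2]
    linarith
  rw [ip_Lz]
  linarith

theorem contr (hK : 1 ≤ K) (z : Fin K → Alt n) (hz : TupleGap z r (9 / 10)) {u : Fn n r}
    (hu : ∑ a, u a = 0) : ip (Lz z u) (Lz z u) ≤ (11 / 20) ^ 2 * ip u u := by
  have hLu : ∑ a, Lz z u a = 0 := by rw [sum_Lz hK, hu]
  have h1 := gap_ip z hz hu
  have h2 := gap_ip z hz hLu
  have h3 : 0 ≤ ip (Lz z (u - (20 / 11 : ℝ) • Lz z u)) (u - (20 / 11 : ℝ) • Lz z u) := by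
    rw [ip_Lz]
    have := neg_le_ip_Wk hK z (u - (20 / 11 : ℝ) • Lz z u)
    linarith
  rw [map_sub, map_smul, ip_sub_left, ip_sub_right, ip_sub_right, ip_smul_left, ip_smul_left,
    ip_smul_right, ip_smul_right] at h3
  have h4 : ip (Lz z (Lz z u)) u = ip (Lz z u) (Lz z u) := Lz_symm z _ _
  rw [h4] at h3
  nlinarith

theorem contr_pow (hK : 1 ≤ K) (z : Fin K → Alt n) (hz : TupleGap z r (9 / 10)) {u : Fn n r}
    (hu : ∑ a, u a = 0) (m : ℕ) : ∑ a, ((Lz z) ^ m) u a = 0 ∧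
      ip (((Lz z) ^ m) u) (((Lz z) ^ m) u) ≤ ((11 / 20) ^ m) ^ 2 * ip u u := by
  induction m with
  | zero => simpa using hu
  | succ m ih =>
    rw [pow_succ', Module.End.mul_apply]
    refine ⟨by rw [sum_Lz hK]; exact ih.1, ?_⟩
    refine (contr hK z hz ih.1).trans ?_
    have := ih.2
    calc (11 / 20 : ℝ) ^ 2 * ip (((Lz z) ^ m) u) (((Lz z) ^ m) u)
        ≤ (11 / 20) ^ 2 * (((11 / 20) ^ m) ^ 2 * ip u u) := by gcongr
      _ = _ := by ring

theorem Lz_const (hK : 1 ≤ K) (z : Fin K → Alt n) (c : ℝ) :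
    Lz z (fun _ : Fin r ↪ Fin n => c) = fun _ => c := by
  have hK0 : (0 : ℝ) < K := by exact_mod_cast hK
  funext a
  rw [Lz_apply]
  have h1 : Wk z (fun _ : Fin r ↪ Fin n => c) a = c := by
    rw [Wk_letters]
    simp only [Finset.sum_const, Finset.card_univ, Fintype.card_prod, Fintype.card_fin,
      Fintype.card_bool, nsmul_eq_mul]
    push_cast
    field_simp
  rw [Pi.smul_apply, Pi.add_apply, h1, smul_eq_mul]
  ring

theorem Lz_pow_const (hK : 1 ≤ K) (z : Fin K → Alt n) (c : ℝ) (m : ℕ) :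
    ((Lz z) ^ m) (fun _ : Fin r ↪ Fin n => c) = fun _ => c := by
  induction m with
  | zero => rfl
  | succ m ih => rw [pow_succ', Module.End.mul_apply, ih, Lz_const hK]

theorem Lz_pow_delta (hK : 1 ≤ K) (z : Fin K → Alt n) (hz : TupleGap z r (9 / 10))
    (a b : Fin r ↪ Fin n) (m : ℕ) :
    ((Lz z) ^ m) (Pi.single b 1) a ≤ 1 / (n.descFactorial r : ℝ) + (11 / 20) ^ m := by
  set N : ℝ := (n.descFactorial r : ℝ) with hN
  have hcard : (Fintype.card (Fin r ↪ Fin n) : ℝ) = N := by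
    rw [Fintype.card_embedding_eq, Fintype.card_fin, Fintype.card_fin]
  have hN0 : 0 < N := by
    rw [← hcard]
    exact_mod_cast Fintype.card_pos_iff.2 ⟨b⟩
  set u : Fn n r := Pi.single b 1 - (fun _ => 1 / N) with hu
  have hu0 : ∑ x, u x = 0 := by
    simp only [hu, Pi.sub_apply, Finset.sum_sub_distrib, Finset.sum_pi_single', Finset.mem_univ,
      if_true, Finset.sum_const, Finset.card_univ, nsmul_eq_mul, hcard]
    field_simp
    simp
  have huu : ip u u ≤ 1 := by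
    have e1 : ip u u = 1 - 1 / N := by
      have e2 : ip u (fun _ => 1 / N) = 0 := by
        unfold ip
        rw [← Finset.sum_mul, hu0, zero_mul]
      have e3 : ip u (Pi.single b 1) = u b := by
        unfold ip
        rw [Finset.sum_eq_single b]
        · simp
        · intro x _ hx
          simp [hx]
        · simp
      have e4 : ip u u = ip u (Pi.single b 1) - ip u (fun _ => 1 / N) := by
        rw [← ip_sub_right]
      rw [e4, e2, e3, hu]
      simp
    rw [e1]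
    have : 0 ≤ 1 / N := by positivity
    linarith
  have hs : (Pi.single b 1 : Fn n r) = (fun _ => 1 / N) + u := by
    rw [hu]
    abel
  rw [hs, map_add, Pi.add_apply, Lz_pow_const hK]
  have h1 := (contr_pow hK z hz hu0 m).2
  have h2 : (((Lz z) ^ m) u a) ^ 2 ≤ ip (((Lz z) ^ m) u) (((Lz z) ^ m) u) := by
    unfold ip
    rw [pow_two]
    exact Finset.single_le_sum (f := fun x => ((Lz z) ^ m) u x * ((Lz z) ^ m) u x)
      (fun x _ => mul_self_nonneg _) (Finset.mem_univ a)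
  have h3 : (((Lz z) ^ m) u a) ^ 2 ≤ ((11 / 20) ^ m) ^ 2 := by
    refine h2.trans (h1.trans ?_)
    exact mul_le_of_le_one_right (by positivity) huu
  have h4 : ((Lz z) ^ m) u a ≤ (11 / 20) ^ m := le_of_sq_le_sq h3 (by positivity)
  linarith

theorem mix_gen (hK : 1 ≤ K) (z : Fin K → Alt n) (hz : TupleGap z r (9 / 10)) (m : ℕ)
    (a b : Fin r ↪ Fin n) :
    ((univ.filter fun v : Fin m → Lt K =>
      a.trans (pm (up z) (List.ofFn v)).toEmbedding = b).card : ℝ) ≤
    (2 * K) ^ m * ((2 * m + 1) * (1 / (n.descFactorial r : ℝ) + (11 / 20) ^ (2 * m))) := by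
  have h1 : ((univ.filter fun v : Fin m → Lt K =>
      a.trans (pm (up z) (List.ofFn v)).toEmbedding = b).card : ℝ) =
      (2 * (K : ℝ)) ^ m * ((Wk z) ^ m) (Pi.single b 1) a := by
    rw [Wk_pow hK, Finset.card_filter]
    push_cast
    refine Finset.sum_congr rfl fun v _ => ?_
    rw [Pi.single_apply]
  rw [h1]
  refine mul_le_mul_of_nonneg_left ?_ (by positivity)
  refine (Wk_le_Lz z (fun x => ?_) m a).trans ?_
  · rw [Pi.single_apply]
    split_ifs <;> norm_num
  · exact mul_le_mul_of_nonneg_left (Lz_pow_delta hK z hz a b (2 * m)) (by positivity)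

theorem mix1 : S_MIX1 := by
  intro n K m hK z hz a b
  have h := mix_gen hK z hz m (⟨fun _ => a, fun i j _ => Subsingleton.elim i j⟩ : Fin 1 ↪ Fin n)
    ⟨fun _ => b, fun i j _ => Subsingleton.elim i j⟩
  rw [Nat.descFactorial_one] at h
  refine le_trans (le_of_eq ?_) h
  congr 2
  ext v
  simp only [mem_filter, mem_univ, true_and]
  rw [run_eq_pm]
  constructor
  · intro h
    ext i
    exact congrArg Fin.val h
  · intro h
    exact congrArg (fun e : Fin 1 ↪ Fin n => e 0) h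

/-- the pair `(a, b)` -/
def pr (a b : Fin n) (h : a ≠ b) : Fin 2 ↪ Fin n where
  toFun := ![a, b]
  inj' := by
    intro i j hij
    fin_cases i <;> fin_cases j <;> simp_all [eq_comm]

theorem mix2 : S_MIX2 := by
  intro n K m hK z hz a b c d hab hcd
  have h := mix_gen hK z hz m (pr a b hab) (pr c d hcd)
  have e : (n.descFactorial 2 : ℝ) = n * (n - 1) := by
    rw [Nat.descFactorial_succ, Nat.descFactorial_one]
    have : 1 ≤ n := (Fin.pos a)
    push_cast [Nat.cast_sub this]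
    ring
  rw [e] at h
  refine le_trans (le_of_eq ?_) h
  congr 2
  ext v
  simp only [mem_filter, mem_univ, true_and]
  rw [run_eq_pm, run_eq_pm]
  constructor
  · rintro ⟨h1, h2⟩
    ext i
    fin_cases i
    · exact congrArg Fin.val h1
    · exact congrArg Fin.val h2
  · intro h
    exact ⟨congrArg (fun e : Fin 2 ↪ Fin n => e 0) h, congrArg (fun e : Fin 2 ↪ Fin n => e 1) h⟩

end Pool.Agent.Helper58.FS.Mix
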