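import Pool.Agent.Helper91.FS.Goals
import Pool.Agent.Helper40.NF.R1B

set_option autoImplicit false

namespace Pool.Agent.Helper58.FS

open Finset
open Pool.Agent.Helper91.FS
open Pool.Agent.Helper49.NF (els Nn inv Ma Mb TT Bb Lg Sat Fam Goal_CLS Goal_CMB Goal_N1B)
open Pool.Agent.Helper40.NF (card_le_W card_lev Mb_le)
open Pool.Agent.Helper47.SR (Grp mv lev wt Ew W IsInv up dn StarAt HalfStarAt)

/-- **R1BT.** -/
theorem goal_R1BT (hEJ : Goal_EJT) (hNS : Goal_NST) (hRED : Goal_REDT) (hCLS : Goal_CLS)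
    (hCMB : Goal_CMB) (hN1B : Goal_N1B) (hNK : Goal_NUMK) (hND : Goal_NUMD) : Goal_R1BT := by
  intro t ht1
  obtain ⟨n1, h1⟩ := hN1B
  obtain ⟨n2, h2⟩ := hND t ht1
  obtain ⟨n3, h3⟩ := hNK t ht1
  refine ⟨n1 + n2 + n3, fun n hn L f G hG hL hf m htm hm1 hm2 => ?_⟩
  have hn1 : 1 ≤ n := le_trans hG.t1 hG.tn
  have hL1 := hG.L1
  have hm : 1 ≤ m := le_trans ht1 htm
  obtain ⟨K, hK1, hK, hKh, hLg, -⟩ := h3 n (by omega) L hL1 hL
  obtain ⟨h, hh⟩ : ∃ h, h = 8 * K * Lg n := ⟨_, rfl⟩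
  obtain ⟨z, hz⟩ : ∃ z, z = n / (4 * h ^ 2) := ⟨_, rfl⟩
  have hf4 : f ^ 5 ≤ n ^ 4 := le_trans hf (Nat.pow_le_pow_right hn1 (by norm_num))
  obtain ⟨a1, a2, a3, a4, a5, a6, a7, a8, a9⟩ :=
    h1 n (by omega) m K f h z hm hm2 hK1 hK hf4 hh hz
  have hmn : m ≤ n := le_trans a2 a3
  obtain ⟨b1, b2⟩ := h2 n (by omega) m L hm1 hmn hL1 hL
  have hhL : L * (16 * Lg n) ^ t = h := by rw [hKh, hh]
  rw [hhL] at b2
  obtain ⟨Q, hQ⟩ : ∃ Q, Q = L * n ^ t := ⟨_, rfl⟩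
  have hQ0 : 0 < Q := by rw [hQ]; exact Nat.mul_pos hL1 (Nat.pow_pos hn1)
  rw [← hQ] at b1 b2
  have ht : 0 < 2 ^ m := by positivity
  -- the total excess of the levels m, m+1
  have hE : ∀ j, j ≤ m + 1 → 2 ^ m * Ew G (lev n j) ≤ Q * ((n + 2) ^ 2 * (n * z.choose m)) := by
    intro j hj
    have c1 := hEJ t n L f G hG j
    rw [← hQ] at c1
    have c2 := Mb_le n f j (n * z.choose m) (2 ^ m) (fun p r hpr =>
      hCMB n m z f p r hm a2 a3 a4 a5 a6 (le_trans hpr hj))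
    have c3 : (j + 1) ^ 2 ≤ (n + 2) ^ 2 := Nat.pow_le_pow_left (by omega) 2
    calc 2 ^ m * Ew G (lev n j) ≤ 2 ^ m * (Q * Mb n f j) := Nat.mul_le_mul_left _ c1
      _ = Q * (2 ^ m * Mb n f j) := by ring
      _ ≤ Q * ((j + 1) ^ 2 * (n * z.choose m)) := Nat.mul_le_mul_left _ c2
      _ ≤ Q * ((n + 2) ^ 2 * (n * z.choose m)) :=
          Nat.mul_le_mul_left _ (Nat.mul_le_mul_right _ c3)
  obtain ⟨E, hEd⟩ : ∃ E, E = Q * ((n + 2) ^ 2 * (n * z.choose m)) := ⟨_, rfl⟩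
  have hE1 := hE m (by omega)
  have hE2 := hE (m + 1) le_rfl
  rw [← hEd] at hE1 hE2
  have hb : 2 * (n + 1) * E ≤ 2 ^ m * z.choose m := by
    calc 2 * (n + 1) * E = 2 * (n + 1) * (Q * (n + 2) ^ 2 * n) * z.choose m := by
          rw [hEd]; ring
      _ ≤ 2 ^ m * z.choose m := Nat.mul_le_mul_right _ b1
  have hTT : 2 * TT G m ≤ z.choose m := by
    refine Nat.le_of_mul_le_mul_left ?_ ht
    calc 2 ^ m * (2 * TT G m)
        = 2 * ((m + 1) * (2 ^ m * Ew G (lev n (m + 1))) + (n - m) * (2 ^ m * Ew G (lev n m))) := by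
          unfold TT; ring
      _ ≤ 2 * ((m + 1) * E + (n - m) * E) := by
          refine Nat.mul_le_mul_left _ (Nat.add_le_add ?_ ?_)
          · exact Nat.mul_le_mul_left _ hE2
          · exact Nat.mul_le_mul_left _ hE1
      _ = 2 * (n + 1) * E := by
          rw [← add_mul, show m + 1 + (n - m) = n + 1 by omega]
          ring
      _ ≤ 2 ^ m * z.choose m := hb
  have hEm : n * Ew G (lev n m) ≤ 2 * n.choose m := by
    have d1 : n * Ew G (lev n m) ≤ z.choose m := by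
      refine Nat.le_of_mul_le_mul_left ?_ ht
      calc 2 ^ m * (n * Ew G (lev n m)) = n * (2 ^ m * Ew G (lev n m)) := by ring
        _ ≤ n * E := Nat.mul_le_mul_left _ hE1
        _ ≤ 2 * (n + 1) * E := Nat.mul_le_mul_right _ (by omega)
        _ ≤ 2 ^ m * z.choose m := hb
    have d2 : z.choose m ≤ n.choose m := Nat.choose_le_choose m a3
    omega
  refine hRED t n L f m G hG htm a9 hEm ?_
  intro S Y hF hd hS hlt
  rw [← hQ] at hS
  have hYz : #Y ≤ z.choose m := by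
    have e1 := card_le_W G Y
    have e2 := hF.lt
    omega
  have hSn : #S ≤ n.choose m := by
    rw [← card_lev n m]
    exact Finset.card_le_card hF.S1
  have hNN : ∀ j, t ≤ j → j ≤ m + 1 → 64 * Nn G j (h + 1) ≤ W G S := by
    intro j hj1 hj2
    have e1 := (hNS t n L f G hG j (h + 1) hj1 (by omega) (by omega)).1 (16 * Lg n) (by omega)
      (by rw [hhL]; exact Nat.le_succ h)
    rw [← hQ] at e1
    have e2 : (n + 1) ^ (t - 1 + j / (16 * Lg n)) ≤ (n + 1) ^ (t - 1 + (m + 1) / (16 * Lg n)) :=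
      Nat.pow_le_pow_right (Nat.succ_pos _) (Nat.add_le_add_left (Nat.div_le_div_right hj2) _)
    have e3 : Nn G j (h + 1) ≤ Q ^ (h + 2) * (n + 1) ^ (t - 1 + (m + 1) / (16 * Lg n)) :=
      le_trans e1 (Nat.mul_le_mul_left _ e2)
    have e4 : Q * (64 * Nn G j (h + 1)) ≤ Q * W G S := by
      calc Q * (64 * Nn G j (h + 1)) = 64 * (Q * Nn G j (h + 1)) := by ring
        _ ≤ 64 * (Q * (Q ^ (h + 2) * (n + 1) ^ (t - 1 + (m + 1) / (16 * Lg n)))) :=
            Nat.mul_le_mul_left _ (Nat.mul_le_mul_left _ e3)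
        _ ≤ 2 ^ (m + 1) := b2
        _ ≤ Q * W G S := hS.le
    exact Nat.le_of_mul_le_mul_left e4 hQ0
  refine hCLS n m h (z - m) m G S Y hm a9 a1 hF ?_ ?_ (hNN m htm (by omega))
    (hNN (m + 1) (by omega) le_rfl) ?_ ?_
  · rw [show n - m + m = n by omega, Nat.choose_symm hmn]
    exact hSn
  · rw [show m + (z - m) = z by omega]
    exact hYz
  · have e1 : 64 * (h * (m + 1) * (h * (z - m))) + h * (m + 1) * (m + 1) =
        (64 * h ^ 2 * (z - m) + h * (m + 1)) * (m + 1) := by ring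
    have e2 : 64 * h ^ 2 * (z - m) ≤ 64 * h ^ 2 * z := Nat.mul_le_mul_left _ (Nat.sub_le _ _)
    rw [e1]
    calc (64 * h ^ 2 * (z - m) + h * (m + 1)) * (m + 1)
        ≤ (64 * h ^ 2 * z + h * (m + 1)) * (m + 1) :=
          Nat.mul_le_mul_right _ (Nat.add_le_add_right e2 _)
      _ ≤ 63 * (n - m) * (m + 1) := Nat.mul_le_mul_right _ a7
      _ = 63 * ((n - m) * (m + 1)) := by ring
  · calc 65 * (h * (m + 1) * (m + 1)) = 65 * (h * (m + 1)) * (m + 1) := by ring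
      _ ≤ 63 * (n - m) * (m + 1) := Nat.mul_le_mul_right _ a8
      _ = 63 * ((n - m) * (m + 1)) := by ring

end Pool.Agent.Helper58.FS
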